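import Pool.Agent.R822.SuitB

/-!
MP_eb7acf: there is a generalized orderable (even linearly ordered) topological group with an
`ω^ω`-base and without a suitable set.
-/

namespace Pool.Agent.Results.MP_eb7acf_gt.NoSuitable

open Set Topology

/-- `S` is a suitable set for the topological group `G`: the subspace `S` is discrete, `S ∪ {e}`
is closed in `G`, and the subgroup generated by `S` is dense in `G`. -/
def IsSuitable {G : Type} [Group G] [TopologicalSpace G] (S : Set G) : Prop :=
  DiscreteTopology S ∧ IsClosed (S ∪ {1}) ∧ Dense (Subgroup.closure S : Set G)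

/-- `X` has an `ω^ω`-base: every point `x` has a neighbourhood base indexed by the functions
`ℕ → ℕ`, monotone for the pointwise order. -/
def HasOmegaOmegaBase (X : Type) [TopologicalSpace X] : Prop :=
  ∀ x : X, ∃ V : (ℕ → ℕ) → Set X, (∀ a b, a ≤ b → V b ⊆ V a) ∧
    (𝓝 x).HasBasis (fun _ => True) V

/-- The topology of `X` contains the order topology of the given linear order and has a base of
order-convex sets, so `X` is a generalized orderable space. -/
def IsGO (X : Type) [LinearOrder X] [TopologicalSpace X] : Prop :=
  (∀ a : X, IsOpen (Iio a) ∧ IsOpen (Ioi a)) ∧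
  ∀ x : X, ∀ V ∈ 𝓝 x, ∃ C, IsOpen C ∧ C.OrdConnected ∧ x ∈ C ∧ C ⊆ V

/-- There is a commutative topological group with an `ω^ω`-base which is a generalized orderable
space, whose topology is even the order topology of a linear order compatible with the group
operation, and which has no suitable set. -/
theorem result :
    ∃ (G : Type) (_ : CommGroup G) (_ : LinearOrder G) (_ : TopologicalSpace G),
      IsOrderedMonoid G ∧ OrderTopology G ∧ IsGO G ∧ IsTopologicalGroup G ∧ T35Space G ∧
      HasOmegaOmegaBase G ∧
      ¬ ∃ S : Set G, IsSuitable S := by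
  have hI := Pool.Agent.R822.Suit.good_J
  have := hI.noMax
  have := hI.nonempty
  refine ⟨Multiplicative (Pool.Agent.R822.Suit.HH Pool.Agent.R822.Suit.J), inferInstance,
    inferInstance, inferInstance, inferInstance, ?_, ?_, inferInstance, ?_, ?_, ?_⟩
  · exact inferInstanceAs (OrderTopology (Pool.Agent.R822.Suit.HH Pool.Agent.R822.Suit.J))
  · exact Pool.Agent.R822.Suit.isGO_J
  · exact inferInstanceAs (T35Space (Pool.Agent.R822.Suit.HH Pool.Agent.R822.Suit.J))
  · exact Pool.Agent.R822.Suit.base_J
  · rintro ⟨S, hS⟩
    exact Pool.Agent.R822.Suit.no_suitable_mul hI S hS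

end Pool.Agent.Results.MP_eb7acf_gt.NoSuitable
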